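import Pool.Agent.Run7.h914.Orb2
import Pool.Agent.Run7.h914.Gap

set_option autoImplicit false

/-!
# Long runs of composite numbers on sets with many linear symmetries modulo primes

Write `f(x) = log x (log₂ x)² log₄ x / (log₃ x)²` for the record size of the runs of composite numbers known to exist
below `x`.  Let `p` be a large prime; a box is a set `∏ (M_j, M_j + L_j]` of integer vectors with `M_j ≥ 2 p ^ δ` and
`p ^ δ ≤ L_j ≤ p`, of volume `V`.  A point `z` of the box is good if all the monomials `∏ z_j ^ (e_j)` with coprime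
exponents `e_j ≤ E` lie in runs of composite numbers between consecutive primes at distance at least `κ f(p)`.

(1) Let `S` be a set of vectors modulo `p` such that every linear form `α ≠ 0` has at least `K` different images `α g`
under the nonsingular matrices `g` which map `S` into itself.  If `V² |S| K ≥ p ^ (3 r + 2 δ)`, at least
`p ^ (-δ) |S| V / p ^ r` good points of the box are in `S` modulo `p`.

(2) Let `ω` be a basis of the field with `p ^ r` elements, `H` a subgroup of its multiplicative group and `H S ⊆ S`.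
If `V² |S| |H| ≥ p ^ (3 r + 2 δ)`, at least `p ^ (-δ) |S| V / p ^ r` good points `z` of the box satisfy
`∑ z_j ω_j ∈ S`.

(3) If `c ≠ 0` and `V ≥ p ^ (r / 2 + 1 + δ)`, at least `p ^ (-δ) V / p` good points `z` of the box satisfy
`Norm (∑ z_j ω_j) = c`.

Proof.  Parseval's identity and the invariance of the Fourier coefficients under the symmetries; then the joint
covering sieve of the starting library `N39.RG`.
-/

namespace Pool.Agent.Results.MP_926cc3_nt.LinearSymmetries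

open Finset

/-- The record scale `f(x) = log x (log₂ x)² log₄ x / (log₃ x)²` (iterated natural logarithms). -/
noncomputable def f (x : ℝ) : ℝ :=
  Real.log x * (Real.log (Real.log x)) ^ 2 * Real.log (Real.log (Real.log (Real.log x))) /
    (Real.log (Real.log (Real.log x))) ^ 2

/-- `n` lies strictly between two consecutive primes `q < q'` with `q' - q ≥ g`. -/
def InGap (g : ℝ) (n : ℤ) : Prop :=
  ∃ q q' : ℕ, q.Prime ∧ q'.Prime ∧ (q : ℤ) < n ∧ n < q' ∧ (∀ l : ℕ, q < l → l < q' → ¬ l.Prime) ∧ g ≤ (q' : ℝ) - q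

/-- `z` is in the box, and all its monomials with coprime exponents `≤ E` are in gaps of length at least `g`. -/
def GoodPoint {r : ℕ} (E : ℕ) (g : ℝ) (M : Fin r → ℤ) (L : Fin r → ℕ) (z : Fin r → ℤ) : Prop :=
  (∀ j, M j < z j ∧ z j ≤ M j + L j) ∧
    ∀ e : Fin r → ℕ, (∀ j, e j ≤ E) → Finset.univ.gcd e = 1 → InGap g (∏ j, z j ^ e j)

theorem conv {r : ℕ} {E : ℕ} {κ δ : ℝ} {p : ℕ} (b0 : 0 ≤ κ * f p) (b1 : κ * f p ≤ (p : ℝ) ^ δ) (b2 : 1 ≤ (p : ℝ) ^ δ)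
    {M : Fin r → ℤ} (hM : ∀ j, 2 * (p : ℝ) ^ δ ≤ M j) {L : Fin r → ℕ} {z : Fin r → ℤ}
    (h1 : ∀ j, M j < z j ∧ z j ≤ M j + L j) (h3 : Run7.h914.Good r E κ δ p z) : GoodPoint E (κ * f p) M L z := by
  refine ⟨h1, fun e he hg => ?_⟩
  refine Run7.h914.gaps_of (ι := Fin r) (z := z) (e := e) b0 b1 b2 (fun j => ?_) hg (fun m hm => h3 e he hg m ?_)
  · have : (M j : ℝ) < z j := by exact_mod_cast (h1 j).1
    exact lt_of_le_of_lt (hM j) this
  · push_cast at hm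
    exact hm

/-- The linear forms `α g`, where `g` runs through the linear symmetries of `S`. -/
def formOrbit {p r : ℕ} (S : Finset (Fin r → ZMod p)) (α : Fin r → ZMod p) : Set (Fin r → ZMod p) :=
  {β | ∃ g : Matrix (Fin r) (Fin r) (ZMod p), g.det ≠ 0 ∧ (∀ x ∈ S, g.mulVec x ∈ S) ∧ β = Matrix.vecMul α g}

theorem fin_box {r : ℕ} (M : Fin r → ℤ) (L : Fin r → ℕ) (T : Set (Fin r → ℤ))
    (h : ∀ z ∈ T, ∀ j, M j < z j ∧ z j ≤ M j + L j) : T.Finite := by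
  refine (Set.Finite.pi' (fun j => Set.finite_Ioc (M j) (M j + L j))).subset ?_
  intro z hz j
  exact h z hz j

theorem vol {p r : ℕ} (s : ℝ) (L : Fin r → ℕ) :
    s * ∏ j, ((L j : ℝ) / p) = s * (∏ j, (L j : ℝ)) / (p : ℝ) ^ r := by
  rw [Finset.prod_div_distrib, Finset.prod_const, Finset.card_univ, Fintype.card_fin, mul_div_assoc]

/-- The statement on symmetries. -/
theorem part1 (r E : ℕ) (δ : ℝ) (hδ : 0 < δ) (hδ1 : δ ≤ 1) :
    ∃ κ : ℝ, 0 < κ ∧ ∃ p₀ : ℕ, ∀ (p : ℕ) [Fact p.Prime], p₀ ≤ p →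
      ∀ (S : Finset (Fin r → ZMod p)) (K : ℕ), (∀ α : Fin r → ZMod p, α ≠ 0 → K ≤ (formOrbit S α).ncard) →
      ∀ (M : Fin r → ℤ) (L : Fin r → ℕ), (∀ j, 2 * (p : ℝ) ^ δ ≤ M j) → (∀ j, (p : ℝ) ^ δ ≤ L j ∧ L j ≤ p) →
        (p : ℝ) ^ (3 * (r : ℝ) + 2 * δ) ≤ (∏ j, (L j : ℝ)) ^ 2 * (S.card * K) →
      (p : ℝ) ^ (-δ) * (S.card * (∏ j, (L j : ℝ)) / (p : ℝ) ^ r) ≤
        (Set.ncard {z : Fin r → ℤ | GoodPoint E (κ * f p) M L z ∧ (fun j => (z j : ZMod p)) ∈ S} : ℝ) := by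
  classical
  obtain ⟨κ, hκ, p₀, h⟩ := Run7.h914.rec_symm r E δ hδ hδ1
  obtain ⟨p₁, h'⟩ := Run7.h914.ff_small κ δ hκ hδ
  refine ⟨κ, hκ, max p₀ p₁, ?_⟩
  intro p _ hpp S K hK M L hM hL hV
  obtain ⟨b0, b1, b2⟩ := h' p ((le_max_right _ _).trans hpp)
  have key := h p ((le_max_left _ _).trans hpp) S K (by
    intro α hα
    have h1 := Run7.h914.TS_small S α (Set.toFinset (formOrbit S α)) (by
      intro β hβ
      rw [Set.mem_toFinset] at hβ
      obtain ⟨g, hg, hgS, rfl⟩ := hβ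
      refine Run7.h914.TS_symm S (fun x => g.mulVec x) ?_ hgS α _ ?_
      · intro x y hxy
        have h2 : g.mulVec (x - y) = 0 := by
          rw [Matrix.mulVec_sub, sub_eq_zero]
          exact hxy
        exact sub_eq_zero.1 (Matrix.eq_zero_of_mulVec_eq_zero hg h2)
      · intro x
        exact (Matrix.dotProduct_mulVec α g x).symm)
    rw [← Set.ncard_eq_toFinset_card'] at h1
    have h3 : (K : ℝ) ≤ ((formOrbit S α).ncard : ℝ) := by exact_mod_cast hK α hα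
    exact (mul_le_mul_of_nonneg_right h3 (by positivity)).trans h1) M L hL hV
  rw [vol] at key
  refine key.trans ?_
  rw [Nat.cast_le]
  refine Set.ncard_le_ncard ?_ (fin_box M L _ fun z hz => hz.1.1)
  rintro z ⟨h1, h2, h3⟩
  exact ⟨conv b0 b1 b2 hM h1 h3, h2⟩

open scoped Classical in
/-- **Long runs of composite numbers on sets with many linear symmetries modulo primes.** -/
theorem result (r E : ℕ) (δ : ℝ) (hδ : 0 < δ) (hδ1 : δ ≤ 1) :
    (∃ κ : ℝ, 0 < κ ∧ ∃ p₀ : ℕ, ∀ (p : ℕ) [Fact p.Prime], p₀ ≤ p →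
      ∀ (S : Finset (Fin r → ZMod p)) (K : ℕ), (∀ α : Fin r → ZMod p, α ≠ 0 → K ≤ (formOrbit S α).ncard) →
      ∀ (M : Fin r → ℤ) (L : Fin r → ℕ), (∀ j, 2 * (p : ℝ) ^ δ ≤ M j) → (∀ j, (p : ℝ) ^ δ ≤ L j ∧ L j ≤ p) →
        (p : ℝ) ^ (3 * (r : ℝ) + 2 * δ) ≤ (∏ j, (L j : ℝ)) ^ 2 * (S.card * K) →
      (p : ℝ) ^ (-δ) * (S.card * (∏ j, (L j : ℝ)) / (p : ℝ) ^ r) ≤
        (Set.ncard {z : Fin r → ℤ | GoodPoint E (κ * f p) M L z ∧ (fun j => (z j : ZMod p)) ∈ S} : ℝ)) ∧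
    (∃ κ : ℝ, 0 < κ ∧ ∃ p₀ : ℕ, ∀ (p : ℕ) [Fact p.Prime], p₀ ≤ p →
      ∀ (K : Type) [Field K] [Fintype K] [Algebra (ZMod p) K] (ω : Module.Basis (Fin r) (ZMod p) K),
      (∀ (H : Subgroup Kˣ) (S : Finset K), (∀ h ∈ H, ∀ x ∈ S, (h : K) * x ∈ S) →
        ∀ (M : Fin r → ℤ) (L : Fin r → ℕ), (∀ j, 2 * (p : ℝ) ^ δ ≤ M j) → (∀ j, (p : ℝ) ^ δ ≤ L j ∧ L j ≤ p) →
          (p : ℝ) ^ (3 * (r : ℝ) + 2 * δ) ≤ (∏ j, (L j : ℝ)) ^ 2 * (S.card * Nat.card H) →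
        (p : ℝ) ^ (-δ) * (S.card * (∏ j, (L j : ℝ)) / (p : ℝ) ^ r) ≤
          (Set.ncard {z : Fin r → ℤ | GoodPoint E (κ * f p) M L z ∧ ∑ j, (z j : ZMod p) • ω j ∈ S} : ℝ)) ∧
      (1 ≤ r → ∀ c : ZMod p, c ≠ 0 →
        ∀ (M : Fin r → ℤ) (L : Fin r → ℕ), (∀ j, 2 * (p : ℝ) ^ δ ≤ M j) → (∀ j, (p : ℝ) ^ δ ≤ L j ∧ L j ≤ p) →
          (p : ℝ) ^ ((r : ℝ) / 2 + 1 + δ) ≤ ∏ j, (L j : ℝ) →
        (p : ℝ) ^ (-δ) * ((∏ j, (L j : ℝ)) / p) ≤
          (Set.ncard {z : Fin r → ℤ | GoodPoint E (κ * f p) M L z ∧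
            Algebra.norm (ZMod p) (∑ j, (z j : ZMod p) • ω j) = c} : ℝ))) := by
  refine ⟨part1 r E δ hδ hδ1, ?_⟩
  obtain ⟨κ, hκ, p₀, h⟩ := Run7.h914.rec_cosets r E δ hδ hδ1
  obtain ⟨p₁, h'⟩ := Run7.h914.ff_small κ δ hκ hδ
  refine ⟨κ, hκ, max p₀ p₁, ?_⟩
  intro p _ hpp K _ _ _ ω
  obtain ⟨b0, b1, b2⟩ := h' p ((le_max_right _ _).trans hpp)
  have hp : p.Prime := Fact.out
  have hp0 : (0 : ℝ) < p := by exact_mod_cast hp.pos
  have h1 : ∀ (H : Subgroup Kˣ) (S : Finset K), (∀ h ∈ H, ∀ x ∈ S, (h : K) * x ∈ S) →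
        ∀ (M : Fin r → ℤ) (L : Fin r → ℕ), (∀ j, 2 * (p : ℝ) ^ δ ≤ M j) → (∀ j, (p : ℝ) ^ δ ≤ L j ∧ L j ≤ p) →
          (p : ℝ) ^ (3 * (r : ℝ) + 2 * δ) ≤ (∏ j, (L j : ℝ)) ^ 2 * (S.card * Nat.card H) →
        (p : ℝ) ^ (-δ) * (S.card * (∏ j, (L j : ℝ)) / (p : ℝ) ^ r) ≤
          (Set.ncard {z : Fin r → ℤ | GoodPoint E (κ * f p) M L z ∧ ∑ j, (z j : ZMod p) • ω j ∈ S} : ℝ) := by
    intro H S hS M L hM hL hV
    have key := h p ((le_max_left _ _).trans hpp) K ω H S hS M L hL hV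
    rw [vol] at key
    refine key.trans ?_
    rw [Nat.cast_le]
    refine Set.ncard_le_ncard ?_ (fin_box M L _ fun z hz => hz.1.1)
    rintro z ⟨h1, h2, h3⟩
    exact ⟨conv b0 b1 b2 hM h1 h3, h2⟩
  refine ⟨h1, ?_⟩
  intro hr c hc M L hM hL hV
  have hp0' : (0 : ℝ) ≤ (p : ℝ) ^ (r - 1) := by positivity
  have c1 : (p : ℝ) ^ (r - 1) ≤ ((univ.filter (fun x : K => Algebra.norm (ZMod p) x = c)).card : ℝ) := by
    exact_mod_cast Run7.h914.card_norm ω hr c hc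
  have c2 : (p : ℝ) ^ (r - 1) ≤ (Nat.card (Units.map (Algebra.norm (ZMod p) : K →* ZMod p)).ker : ℝ) := by
    exact_mod_cast Run7.h914.card_norm_one ω hr
  have hV0 : (0 : ℝ) ≤ ∏ j, (L j : ℝ) := Finset.prod_nonneg fun j _ => Nat.cast_nonneg _
  have key := h1 (Units.map (Algebra.norm (ZMod p) : K →* ZMod p)).ker
    (univ.filter (fun x : K => Algebra.norm (ZMod p) x = c)) (by
      intro u hu x hx
      rw [mem_filter] at hx ⊢
      rw [MonoidHom.mem_ker] at hu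
      have h2 := congrArg Units.val hu
      have h3 : Algebra.norm (ZMod p) (u : K) = 1 := by simpa using h2
      exact ⟨mem_univ _, by rw [map_mul, h3, one_mul, hx.2]⟩) M L hM hL (by
    have h2 : ((p : ℝ) ^ ((r : ℝ) / 2 + 1 + δ)) ^ 2 ≤ (∏ j, (L j : ℝ)) ^ 2 :=
      pow_le_pow_left₀ (Real.rpow_nonneg hp0.le _) hV 2
    have h3 : (p : ℝ) ^ (3 * (r : ℝ) + 2 * δ) =
        ((p : ℝ) ^ ((r : ℝ) / 2 + 1 + δ)) ^ 2 * ((p : ℝ) ^ (r - 1) * (p : ℝ) ^ (r - 1)) := by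
      rw [← Real.rpow_natCast _ 2, ← Real.rpow_mul hp0.le, ← pow_add, ← Real.rpow_natCast _ (r - 1 + (r - 1)),
        ← Real.rpow_add hp0]
      congr 1
      push_cast [Nat.cast_sub hr]
      ring
    rw [h3]
    exact mul_le_mul h2 (mul_le_mul c1 c2 hp0' (by positivity)) (by positivity) (by positivity))
  have h4 : (p : ℝ) ^ (-δ) * ((∏ j, (L j : ℝ)) / p) ≤
      (p : ℝ) ^ (-δ) * (((univ.filter (fun x : K => Algebra.norm (ZMod p) x = c)).card : ℝ) * (∏ j, (L j : ℝ)) /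
        (p : ℝ) ^ r) := by
    refine mul_le_mul_of_nonneg_left ?_ (Real.rpow_nonneg hp0.le _)
    have h5 : (p : ℝ) ^ r = (p : ℝ) ^ (r - 1) * p := by
      rw [← pow_succ]
      congr 1
      omega
    rw [h5, div_le_div_iff₀ hp0 (by positivity)]
    have h6 := mul_le_mul_of_nonneg_right c1 (mul_nonneg hV0 hp0.le)
    linarith
  refine h4.trans (key.trans (le_of_eq ?_))
  congr 2
  ext z
  simp only [Set.mem_setOf_eq, mem_filter, mem_univ, true_and]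

end Pool.Agent.Results.MP_926cc3_nt.LinearSymmetries
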