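import Pool.Agent.Run7.h914.QuadRec
import Pool.Agent.Run7.h914.Gap

set_option autoImplicit false

/-!
# Long runs of composite numbers around the points of quadrics modulo primes

Write `f(x) = log x (log₂ x)² log₄ x / (log₃ x)²` for the record size of the runs of composite numbers known to exist
below `x`.  Let `p` be a large prime and `Q(x) = ∑ A_ij x_i x_j` a nondegenerate quadratic form in `n` variables over
the field with `p` elements.

(1) (`n ≥ 2`) For every centre `c`, every `b ≠ 0` and every box `∏ (M_j, M_j + L_j]` with `M_j ≥ 2 p ^ δ`, with sides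
between `p ^ δ` and `p` and of volume `V ≥ p ^ ((n + 1) / 2 + δ)`, at least `p ^ (-δ) V / p` integer points `z` of the
box satisfy `Q(z - c) ≡ b` and all the monomials `z₁ ^ (e₁) ⋯ z_n ^ (e_n)` with coprime exponents `e_j ≤ E` are in runs
of composite numbers between two consecutive primes at distance at least `κ f(p)`.

(2) The same for the paraboloids `z₀ ≡ Q(z₁, …, z_n) + ∑ l_i z_i + c`, in boxes of `n + 1` dimensions and of volume
`V ≥ p ^ (n / 2 + 1 + δ)`.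

In each case about `V / p` points of the box are on the quadric.

Proof.  The exponential sums over the quadrics are evaluated by Gauss sums and Kloosterman and Salie sums, bounded
through Weil's bound for rational functions (proved in Lean in the library); then the joint covering sieve of the
starting library `N39.RG`.
-/

namespace Pool.Agent.Results.MP_926cc3_nt.Quadrics

/-- The record scale `f(x) = log x (log₂ x)² log₄ x / (log₃ x)²` (iterated natural logarithms). -/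
noncomputable def f (x : ℝ) : ℝ :=
  Real.log x * (Real.log (Real.log x)) ^ 2 * Real.log (Real.log (Real.log (Real.log x))) /
    (Real.log (Real.log (Real.log x))) ^ 2

/-- `n` lies strictly between two consecutive primes `q < q'` with `q' - q ≥ g`. -/
def InGap (g : ℝ) (n : ℤ) : Prop :=
  ∃ q q' : ℕ, q.Prime ∧ q'.Prime ∧ (q : ℤ) < n ∧ n < q' ∧ (∀ l : ℕ, q < l → l < q' → ¬ l.Prime) ∧ g ≤ (q' : ℝ) - q

/-- `z` is in the box, and all its monomials with coprime exponents `≤ E` are in gaps of length at least `g`. -/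
def GoodPoint {r : ℕ} (E : ℕ) (g : ℝ) (M : Fin r → ℤ) (L : Fin r → ℕ) (z : Fin r → ℤ) : Prop :=
  (∀ j, M j < z j ∧ z j ≤ M j + L j) ∧
    ∀ e : Fin r → ℕ, (∀ j, e j ≤ E) → Finset.univ.gcd e = 1 → InGap g (∏ j, z j ^ e j)

theorem conv {r : ℕ} {E : ℕ} {κ δ : ℝ} {p : ℕ} (b0 : 0 ≤ κ * f p) (b1 : κ * f p ≤ (p : ℝ) ^ δ) (b2 : 1 ≤ (p : ℝ) ^ δ)
    {M : Fin r → ℤ} (hM : ∀ j, 2 * (p : ℝ) ^ δ ≤ M j) {L : Fin r → ℕ} {z : Fin r → ℤ}
    (h1 : ∀ j, M j < z j ∧ z j ≤ M j + L j) (h3 : Run7.h914.Good r E κ δ p z) : GoodPoint E (κ * f p) M L z := by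
  refine ⟨h1, fun e he hg => ?_⟩
  refine Run7.h914.gaps_of (ι := Fin r) (z := z) (e := e) b0 b1 b2 (fun j => ?_) hg (fun m hm => h3 e he hg m ?_)
  · have : (M j : ℝ) < z j := by exact_mod_cast (h1 j).1
    exact lt_of_le_of_lt (hM j) this
  · push_cast at hm
    exact hm

theorem qf_eq {p n : ℕ} [Fact p.Prime] (A : Matrix (Fin n) (Fin n) (ZMod p)) (x : Fin n → ZMod p) :
    Run7.h914.qf A x = ∑ i, ∑ j, A i j * x i * x j := by
  unfold Run7.h914.qf
  simp only [dotProduct, Matrix.mulVec, Finset.mul_sum]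
  refine Finset.sum_congr rfl fun i _ => Finset.sum_congr rfl fun j _ => ?_
  ring

theorem vol {p r : ℕ} (hp : 0 < p) (k : ℝ) (L : Fin r → ℕ) (hk : k = (r : ℝ) - 1) :
    (p : ℝ) ^ k * ∏ j, ((L j : ℝ) / p) = (∏ j, (L j : ℝ)) / p := by
  have hp0 : (0 : ℝ) < p := by exact_mod_cast hp
  rw [Finset.prod_div_distrib, Finset.prod_const, Finset.card_univ, Fintype.card_fin, hk, Real.rpow_sub hp0,
    Real.rpow_one, Real.rpow_natCast]
  have : (p : ℝ) ^ r ≠ 0 := by positivity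
  field_simp

/-- **Long runs of composite numbers around the points of quadrics modulo primes.** -/
theorem result (n E : ℕ) (δ : ℝ) (hδ : 0 < δ) (hδ1 : δ ≤ 1) :
    (2 ≤ n → ∃ κ : ℝ, 0 < κ ∧ ∃ p₀ : ℕ, ∀ (p : ℕ) [Fact p.Prime], p₀ ≤ p →
      ∀ A : Matrix (Fin n) (Fin n) (ZMod p), A.IsSymm → A.det ≠ 0 →
      ∀ (c : Fin n → ZMod p) (b : ZMod p), b ≠ 0 →
      ∀ (M : Fin n → ℤ) (L : Fin n → ℕ), (∀ j, 2 * (p : ℝ) ^ δ ≤ M j) → (∀ j, (p : ℝ) ^ δ ≤ L j ∧ L j ≤ p) →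
        (p : ℝ) ^ (((n : ℝ) + 1) / 2 + δ) ≤ ∏ j, (L j : ℝ) →
      (p : ℝ) ^ (-δ) * ((∏ j, (L j : ℝ)) / p) ≤
        (Set.ncard {z : Fin n → ℤ | GoodPoint E (κ * f p) M L z ∧
          ∑ i, ∑ j, A i j * ((z i : ZMod p) - c i) * ((z j : ZMod p) - c j) = b} : ℝ)) ∧
    (∃ κ : ℝ, 0 < κ ∧ ∃ p₀ : ℕ, ∀ (p : ℕ) [Fact p.Prime], p₀ ≤ p →
      ∀ A : Matrix (Fin n) (Fin n) (ZMod p), A.IsSymm → A.det ≠ 0 →
      ∀ (l : Fin n → ZMod p) (c : ZMod p),
      ∀ (M : Fin (n + 1) → ℤ) (L : Fin (n + 1) → ℕ), (∀ j, 2 * (p : ℝ) ^ δ ≤ M j) → (∀ j, (p : ℝ) ^ δ ≤ L j ∧ L j ≤ p) →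
        (p : ℝ) ^ ((n : ℝ) / 2 + 1 + δ) ≤ ∏ j, (L j : ℝ) →
      (p : ℝ) ^ (-δ) * ((∏ j, (L j : ℝ)) / p) ≤
        (Set.ncard {z : Fin (n + 1) → ℤ | GoodPoint E (κ * f p) M L z ∧
          (z 0 : ZMod p) = ∑ i, ∑ j, A i j * (z i.succ : ZMod p) * (z j.succ : ZMod p) +
            ∑ i, l i * (z i.succ : ZMod p) + c} : ℝ)) := by
  constructor
  · intro hn
    obtain ⟨κ, hκ, p₀, h⟩ := Run7.h914.rec_quad n E hn δ hδ hδ1
    obtain ⟨p₁, h'⟩ := Run7.h914.ff_small κ δ hκ hδ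
    refine ⟨κ, hκ, max p₀ p₁, ?_⟩
    intro p _ hpp A hA hd c b hb M L hM hL hV
    have hp : p.Prime := Fact.out
    obtain ⟨b0, b1, b2⟩ := h' p ((le_max_right _ _).trans hpp)
    have key := h p ((le_max_left _ _).trans hpp) A c b hA hd hb M L hL hV
    rw [vol hp.pos _ L rfl] at key
    refine key.trans ?_
    rw [Nat.cast_le]
    refine Set.ncard_le_ncard ?_ ?_
    · rintro z ⟨h1, h2, h3⟩
      refine ⟨conv b0 b1 b2 hM h1 h3, ?_⟩
      rw [qf_eq] at h2
      exact h2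
    · refine (Set.Finite.pi' (fun j => Set.finite_Ioc (M j) (M j + L j))).subset ?_
      intro z hz j
      exact hz.1.1 j
  · obtain ⟨κ, hκ, p₀, h⟩ := Run7.h914.rec_parab n E δ hδ hδ1
    obtain ⟨p₁, h'⟩ := Run7.h914.ff_small κ δ hκ hδ
    refine ⟨κ, hκ, max p₀ p₁, ?_⟩
    intro p _ hpp A hA hd l c M L hM hL hV
    have hp : p.Prime := Fact.out
    obtain ⟨b0, b1, b2⟩ := h' p ((le_max_right _ _).trans hpp)
    have key := h p ((le_max_left _ _).trans hpp) A l c hA hd M L hL hV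
    rw [vol hp.pos _ L (by push_cast; ring)] at key
    refine key.trans ?_
    rw [Nat.cast_le]
    refine Set.ncard_le_ncard ?_ ?_
    · rintro z ⟨h1, h2, h3⟩
      refine ⟨conv b0 b1 b2 hM h1 h3, ?_⟩
      rw [qf_eq] at h2
      exact h2
    · refine (Set.Finite.pi' (fun j => Set.finite_Ioc (M j) (M j + L j))).subset ?_
      intro z hz j
      exact hz.1.1 j

end Pool.Agent.Results.MP_926cc3_nt.Quadrics
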