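import Pool.Agent.Run7.h914.Rspc

set_option autoImplicit false

/-!
# Long runs of composite numbers around the points of rational curves modulo primes

Write `f(x) = log x (log₂ x)² log₄ x / (log₃ x)²` for the record size of the runs of composite numbers which are known
to exist below `x`.  An integer `n` is a centre modulo `p` if every integer within `κ f(p)` of `n` has a prime factor
`≤ p ^ δ`; so a centre `n` with `|n| > p ^ δ + κ f(p)` is in the middle of a run of composite numbers of this record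
length.

(1) Let `p` be a large prime and let `x ↦ (P_1(x) / Q(x), …, P_r(x) / Q(x))` be ANY rational curve in the space of
dimension `r` over the field with `p` elements, not contained in a hyperplane, with `P_j` and `Q` of degrees at most
`p ^ (δ / 50)`.  For every box `∏ (M_j, M_j + L_j]` with sides between `p ^ δ` and `p` and of volume
`V ≥ p ^ (r - 1 / 2 + δ)` there are at least `p ^ (-δ) V / p ^ (r - 1)` residues `x` for which the point of the curve
has a representative `z` in the box such that all the monomials `z₁ ^ (e₁) ⋯ z_r ^ (e_r)` with coprime exponents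
`e_j ≤ E` are centres.  (There are about `V / p ^ (r - 1)` residues `x` such that the point is in the box.)

(2) In particular, for `δ ≤ 1 / 2`, any `r` and all large primes `p` there are at least `p ^ (1 - δ)` residues `x`
modulo `p` such that the least positive inverses modulo `p` of `x + 1`, …, `x + r` and all their coprime monomials
are centres.

Proof.  The exponential sums over the curve are `O(√p)` by Weil's bound for rational functions (proved in Lean in
the library).  Then the joint covering sieve of the starting library `N39.RG`.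
-/

namespace Pool.Agent.Results.MP_926cc3_nt.RationalCurves

open Polynomial

/-- The record scale `f(x) = log x (log₂ x)² log₄ x / (log₃ x)²` (iterated natural logarithms). -/
noncomputable def f (x : ℝ) : ℝ :=
  Real.log x * (Real.log (Real.log x)) ^ 2 * Real.log (Real.log (Real.log (Real.log x))) /
    (Real.log (Real.log (Real.log x))) ^ 2

/-- Every integer within `κ f(p)` of `n` has a prime factor at most `p ^ δ`. -/
def Centre (κ δ : ℝ) (p : ℕ) (n : ℤ) : Prop :=
  ∀ m : ℤ, |(m : ℝ) - n| ≤ κ * f p → ∃ l : ℕ, l.Prime ∧ (l : ℝ) ≤ (p : ℝ) ^ δ ∧ (l : ℤ) ∣ m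

/-- `z` is in the box, and all its monomials with coprime exponents `≤ E` are centres. -/
def GoodPoint {r : ℕ} (E : ℕ) (κ δ : ℝ) (p : ℕ) (M : Fin r → ℤ) (L : Fin r → ℕ) (z : Fin r → ℤ) : Prop :=
  (∀ j, M j < z j ∧ z j ≤ M j + L j) ∧
    ∀ e : Fin r → ℕ, (∀ j, e j ≤ E) → Finset.univ.gcd e = 1 → Centre κ δ p (∏ j, z j ^ e j)

/-- The general theorem. -/
theorem main (r E : ℕ) (δ : ℝ) (hδ : 0 < δ) (hδ1 : δ ≤ 1) :
    ∃ κ : ℝ, 0 < κ ∧ ∃ p₀ : ℕ, ∀ (p : ℕ) [Fact p.Prime], p₀ ≤ p →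
      ∀ (d : ℕ) (P : Fin r → (ZMod p)[X]) (Q : (ZMod p)[X]), (d : ℝ) ≤ (p : ℝ) ^ (δ / 50) →
      Q ≠ 0 → (∀ j, (P j).natDegree ≤ d) → Q.natDegree ≤ d →
      (∀ (t : Fin r → ZMod p) (c : ZMod p), ∑ j, C (t j) * P j = C c * Q → t = 0) →
      ∀ (M : Fin r → ℤ) (L : Fin r → ℕ), (∀ j, (p : ℝ) ^ δ ≤ L j ∧ L j ≤ p) →
        (p : ℝ) ^ ((r : ℝ) - 1 / 2 + δ) ≤ ∏ j, (L j : ℝ) →
      (p : ℝ) ^ (-δ) * (p * ((∏ j, (L j : ℝ)) / (p : ℝ) ^ r)) ≤
        (Set.ncard {x : ZMod p | Q.eval x ≠ 0 ∧ ∃ z : Fin r → ℤ, GoodPoint E κ δ p M L z ∧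
          ∀ j, (z j : ZMod p) = (P j).eval x / Q.eval x} : ℝ) := by
  obtain ⟨κ, hκ, p₀, h⟩ := Run7.h914.rec_space r E δ hδ hδ1
  refine ⟨κ, hκ, p₀, ?_⟩
  intro p _ hpp d P Q hd hQ hP hQd hind M L hL hV
  have hp : p.Prime := Fact.out
  have hp0 : (0 : ℝ) < p := by exact_mod_cast hp.pos
  have key := h p hpp d P Q hd hQ hP hQd hind M L hL hV
  have hv : ∏ j, ((L j : ℝ) / p) = (∏ j, (L j : ℝ)) / (p : ℝ) ^ r := by
    rw [Finset.prod_div_distrib, Finset.prod_const, Finset.card_univ, Fintype.card_fin]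
  rw [hv] at key
  refine key.trans ?_
  rw [Nat.cast_le]
  refine Set.ncard_le_ncard ?_ (Set.toFinite _)
  rintro x ⟨h1, z, h2, h3⟩
  refine ⟨h1, z, ⟨fun j => ⟨(h2 j).1, (h2 j).2.1⟩, fun e he hg m hm => h3 e he hg m ?_⟩, fun j => (h2 j).2.2⟩
  push_cast at hm
  exact hm

/-- **Long runs of composite numbers around the points of rational curves modulo primes.** -/
theorem result (r E : ℕ) (δ : ℝ) (hδ : 0 < δ) (hδ1 : δ ≤ 1 / 2) :
    (∃ κ : ℝ, 0 < κ ∧ ∃ p₀ : ℕ, ∀ (p : ℕ) [Fact p.Prime], p₀ ≤ p →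
      ∀ (d : ℕ) (P : Fin r → (ZMod p)[X]) (Q : (ZMod p)[X]), (d : ℝ) ≤ (p : ℝ) ^ (δ / 50) →
      Q ≠ 0 → (∀ j, (P j).natDegree ≤ d) → Q.natDegree ≤ d →
      (∀ (t : Fin r → ZMod p) (c : ZMod p), ∑ j, C (t j) * P j = C c * Q → t = 0) →
      ∀ (M : Fin r → ℤ) (L : Fin r → ℕ), (∀ j, (p : ℝ) ^ δ ≤ L j ∧ L j ≤ p) →
        (p : ℝ) ^ ((r : ℝ) - 1 / 2 + δ) ≤ ∏ j, (L j : ℝ) →
      (p : ℝ) ^ (-δ) * (p * ((∏ j, (L j : ℝ)) / (p : ℝ) ^ r)) ≤
        (Set.ncard {x : ZMod p | Q.eval x ≠ 0 ∧ ∃ z : Fin r → ℤ, GoodPoint E κ δ p M L z ∧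
          ∀ j, (z j : ZMod p) = (P j).eval x / Q.eval x} : ℝ)) ∧
    ∃ κ : ℝ, 0 < κ ∧ ∃ p₀ : ℕ, ∀ (p : ℕ) [Fact p.Prime], p₀ ≤ p →
      (p : ℝ) ^ (1 - δ) ≤
        (Set.ncard {x : ZMod p | ∃ z : Fin r → ℤ, GoodPoint E κ δ p (fun _ => 0) (fun _ => p) z ∧
          ∀ j : Fin r, (z j : ZMod p) * (x + ((j : ℕ) + 1)) = 1} : ℝ) := by
  classical
  refine ⟨main r E δ hδ (by linarith), ?_⟩
  obtain ⟨κ, hκ, p₀, h⟩ := main r E δ hδ (by linarith)
  obtain ⟨p₁, h1⟩ := Run7.h914.ev_const (δ / 50) r (by positivity)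
  refine ⟨κ, hκ, max p₀ (max p₁ (r + 1)), ?_⟩
  intro p _ hpp
  have hp : p.Prime := Fact.out
  have hp0 : (0 : ℝ) < p := by exact_mod_cast hp.pos
  have hp1 : (1 : ℝ) ≤ p := by exact_mod_cast hp.one_lt.le
  have e0 : p₀ ≤ p := (le_max_left _ _).trans hpp
  have e1 : p₁ ≤ p := ((le_max_left _ _).trans (le_max_right _ _)).trans hpp
  have e2 : r < p := ((le_max_right _ _).trans (le_max_right _ _)).trans hpp
  -- the linear factors
  set l : Fin r → (ZMod p)[X] := fun j => X + C (((j : ℕ) + 1 : ℕ) : ZMod p) with hl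
  have hroot : ∀ i j : Fin r, (l i).eval (-(((j : ℕ) + 1 : ℕ) : ZMod p)) = 0 → i = j := by
    intro i j hij
    rw [hl] at hij
    simp only [eval_add, eval_X, eval_C] at hij
    have h3 : (((i : ℕ) + 1 : ℕ) : ZMod p) = (((j : ℕ) + 1 : ℕ) : ZMod p) := by
      linear_combination hij
    rw [ZMod.natCast_eq_natCast_iff'] at h3
    rw [Nat.mod_eq_of_lt (by have := i.2; omega), Nat.mod_eq_of_lt (by have := j.2; omega)] at h3
    exact Fin.ext (by omega)
  have hdeg : ∀ s : Finset (Fin r), (∏ i ∈ s, l i).natDegree ≤ r := by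
    intro s
    refine (natDegree_prod_le _ _).trans ?_
    refine (Finset.sum_le_sum (g := fun _ => 1) fun i _ => ?_).trans ?_
    · rw [hl]; exact (natDegree_X_add_C (((i : ℕ) + 1 : ℕ) : ZMod p)).le
    · rw [Finset.sum_const, smul_eq_mul, mul_one]
      exact (Finset.card_le_univ s).trans (by rw [Fintype.card_fin])
  have hQ0 : ∏ i, l i ≠ 0 := Finset.prod_ne_zero_iff.2 fun i _ => by rw [hl]; exact X_add_C_ne_zero _
  have key := h p e0 r (fun j => ∏ i ∈ Finset.univ.erase j, l i) (∏ i, l i) (h1 p e1) hQ0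
    (fun j => hdeg _) (hdeg _) (by
      intro t c htc
      funext j
      have h3 := congrArg (eval (-(((j : ℕ) + 1 : ℕ) : ZMod p))) htc
      have h4 : (∏ i, l i).eval (-(((j : ℕ) + 1 : ℕ) : ZMod p)) = 0 := by
        rw [eval_prod]
        exact Finset.prod_eq_zero (Finset.mem_univ j) (by rw [hl]; simp)
      rw [eval_mul, h4, mul_zero, eval_finsetSum, Finset.sum_eq_single j] at h3
      · rw [eval_mul, eval_C, eval_prod] at h3
        rcases mul_eq_zero.1 h3 with h5 | h5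
        · exact h5
        · exfalso
          obtain ⟨i, hi, h6⟩ := Finset.prod_eq_zero_iff.1 h5
          exact (Finset.mem_erase.1 hi).1 (hroot i j h6)
      · intro i _ hij
        rw [eval_mul, eval_prod, Finset.prod_eq_zero (Finset.mem_erase.2 ⟨hij.symm, Finset.mem_univ j⟩), mul_zero]
        rw [hl]; simp
      · intro h5
        exact absurd (Finset.mem_univ j) h5) (fun _ => 0) (fun _ => p) (fun _ => ⟨by
        calc (p : ℝ) ^ δ ≤ (p : ℝ) ^ (1 : ℝ) := Real.rpow_le_rpow_of_exponent_le hp1 (by linarith)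
          _ = p := Real.rpow_one _, le_refl _⟩) (by
      rw [Finset.prod_const, Finset.card_univ, Fintype.card_fin, ← Real.rpow_natCast]
      exact Real.rpow_le_rpow_of_exponent_le hp1 (by linarith))
  have h3 : (p : ℝ) ^ (-δ) * (p * ((∏ _j : Fin r, ((p : ℕ) : ℝ)) / (p : ℝ) ^ r)) = (p : ℝ) ^ (1 - δ) := by
    rw [Finset.prod_const, Finset.card_univ, Fintype.card_fin, div_self (by positivity), mul_one]
    nth_rewrite 2 [← Real.rpow_one (p : ℝ)]
    rw [← Real.rpow_add hp0]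
    congr 1
    ring
  rw [h3] at key
  refine key.trans ?_
  rw [Nat.cast_le]
  refine Set.ncard_le_ncard ?_ (Set.toFinite _)
  rintro x ⟨h4, z, h5, h6⟩
  refine ⟨z, h5, fun j => ?_⟩
  have h7 : (∏ i, l i).eval x = (l j).eval x * (∏ i ∈ Finset.univ.erase j, l i).eval x := by
    rw [← eval_mul, Finset.mul_prod_erase _ _ (Finset.mem_univ j)]
  have h8 : (l j).eval x = x + ((j : ℕ) + 1) := by
    rw [hl]
    simp only [eval_add, eval_X, eval_C]
    push_cast
    ring
  rw [h7] at h4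
  have h9 := left_ne_zero_of_mul h4
  have h10 := right_ne_zero_of_mul h4
  rw [h6 j, h7, ← h8]
  field_simp

end Pool.Agent.Results.MP_926cc3_nt.RationalCurves
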